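import Mathlib

set_option autoImplicit false

namespace Pool.Agent.H80R2.GW

open CategoryTheory

section hull

variable (E : Type) [Ring E] (D : Type) [AddCommGroup D] [Module E D]

theorem exists_injective_embedding :
    ∃ (I : Type) (_ : AddCommGroup I) (_ : Module E I), Module.Injective E I ∧
      ∃ j : D →ₗ[E] I, Function.Injective j := by
  let X : ModuleCat.{0} E := ModuleCat.of E D
  let J : ModuleCat.{0} E := Injective.under X
  have hJ : Injective J := Injective.injective_under X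
  refine ⟨J, inferInstance, inferInstance, ?_, (Injective.ι X).hom, ?_⟩
  · exact Module.injective_module_of_injective_object E J
  · exact (ModuleCat.mono_iff_injective (Injective.ι X)).1 inferInstance

end hull

section hull2

variable {E : Type} [Ring E] {I : Type} [AddCommGroup I] [Module E I]

/-- `X` is an essential extension of `D` -/
def Ess (D X : Submodule E I) : Prop :=
  D ≤ X ∧ ∀ x ∈ X, x ≠ 0 → ∃ e : E, e • x ≠ 0 ∧ e • x ∈ D

theorem exists_max_ess (D : Submodule E I) :
    ∃ Q : Submodule E I, Ess D Q ∧ ∀ X, Ess D X → Q ≤ X → X = Q := by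
  obtain ⟨Q, -, hQ⟩ := zorn_le_nonempty₀ {X : Submodule E I | Ess D X} (by
    intro c hc hchain X0 hX0
    refine ⟨sSup c, ⟨?_, ?_⟩, fun X hX => le_sSup hX⟩
    · exact le_trans (hc hX0).1 (le_sSup hX0)
    · intro x hx hx0
      rw [Submodule.mem_sSup_of_directed ⟨X0, hX0⟩ hchain.directedOn] at hx
      obtain ⟨X, hX, hxX⟩ := hx
      exact (hc hX).2 x hxX hx0) D ⟨le_rfl, fun x hx hx0 => ⟨1, by rwa [one_smul], by rwa [one_smul]⟩⟩
  exact ⟨Q, hQ.1, fun X hX hle => le_antisymm (hQ.2 hX hle) hle⟩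

theorem exists_max_disj (Q : Submodule E I) :
    ∃ Z : Submodule E I, Q ⊓ Z = ⊥ ∧ ∀ X, Q ⊓ X = ⊥ → Z ≤ X → X = Z := by
  obtain ⟨Z, -, hZ⟩ := zorn_le_nonempty₀ {X : Submodule E I | Q ⊓ X = ⊥} (by
    intro c hc hchain X0 hX0
    refine ⟨sSup c, ?_, fun X hX => le_sSup hX⟩
    show Q ⊓ sSup c = ⊥
    rw [eq_bot_iff]
    rintro x ⟨hxQ, hx⟩
    rw [SetLike.mem_coe, Submodule.mem_sSup_of_directed ⟨X0, hX0⟩ hchain.directedOn] at hx
    obtain ⟨X, hX, hxX⟩ := hx
    have h1 : Q ⊓ X = ⊥ := hc hX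
    rw [← h1]
    exact ⟨hxQ, hxX⟩) ⊥ (by simp)
  exact ⟨Z, hZ.1, fun X hX hle => le_antisymm (hZ.2 hX hle) hle⟩

theorem exists_hull_sub [Module.Injective E I] (D : Submodule E I) :
    ∃ Q : Submodule E I, Ess D Q ∧ Module.Injective E Q := by
  obtain ⟨Q, hQ, hmax⟩ := exists_max_ess D
  obtain ⟨Z, hZ, hZmax⟩ := exists_max_disj Q
  refine ⟨Q, hQ, ?_⟩
  -- the map from `Q` to `I ⧸ Z`
  let φ : Q →ₗ[E] (I ⧸ Z) := Z.mkQ.comp Q.subtype
  have hφ : Function.Injective φ := by
    rw [← LinearMap.ker_eq_bot, Submodule.eq_bot_iff]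
    intro x hx
    have h1 : (x : I) ∈ Z := by
      rw [LinearMap.mem_ker] at hx
      exact (Submodule.Quotient.mk_eq_zero Z).1 hx
    have h2 : (x : I) ∈ Q ⊓ Z := ⟨x.2, h1⟩
    rw [hZ, Submodule.mem_bot] at h2
    exact Subtype.ext h2
  obtain ⟨g, hg⟩ := Module.Injective.out (R := E) (Q := I) φ hφ Q.subtype
  have hgq : ∀ q (hq : q ∈ Q), g (Z.mkQ q) = q := fun q hq => hg ⟨q, hq⟩
  have hginj : Function.Injective g := by
    rw [← LinearMap.ker_eq_bot]
    have h1 : Submodule.comap Z.mkQ (LinearMap.ker g) = Z := by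
      apply hZmax
      · rw [eq_bot_iff]
        rintro x ⟨hxQ, hx⟩
        have hx' : g (Z.mkQ x) = 0 := hx
        rw [hgq x hxQ] at hx'
        rw [hx']
        exact Submodule.zero_mem _
      · intro z hz
        show g (Z.mkQ z) = 0
        have : Z.mkQ z = 0 := (Submodule.Quotient.mk_eq_zero Z).2 hz
        rw [this, map_zero]
    rw [eq_bot_iff]
    intro x hx
    obtain ⟨y, rfl⟩ := Submodule.mkQ_surjective Z x
    have h2 : y ∈ Submodule.comap Z.mkQ (LinearMap.ker g) := hx
    rw [h1] at h2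
    rw [Submodule.mem_bot]
    exact (Submodule.Quotient.mk_eq_zero Z).2 h2
  have hrange : LinearMap.range g = Q := by
    apply hmax
    · constructor
      · intro d hd
        exact ⟨Z.mkQ d, hgq d (hQ.1 hd)⟩
      · rintro y ⟨x, rfl⟩ hy
        obtain ⟨x, rfl⟩ := Submodule.mkQ_surjective Z x
        have hxZ : x ∉ Z := by
          intro h
          apply hy
          have : Z.mkQ x = 0 := (Submodule.Quotient.mk_eq_zero Z).2 h
          rw [this, map_zero]
        have h1 : Q ⊓ (Z ⊔ Submodule.span E {x}) ≠ ⊥ := by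
          intro h
          have h2 := hZmax _ h le_sup_left
          apply hxZ
          rw [← h2]
          exact Submodule.mem_sup_right (Submodule.mem_span_singleton_self x)
        obtain ⟨q, ⟨hqQ, hq⟩, hq0⟩ := (Submodule.ne_bot_iff _).1 h1
        rw [SetLike.mem_coe, Submodule.mem_sup] at hq
        obtain ⟨z, hz, w, hw, hzw⟩ := hq
        obtain ⟨e, rfl⟩ := Submodule.mem_span_singleton.1 hw
        have h3 : e • g (Z.mkQ x) = q := by
          rw [← map_smul, ← map_smul]
          have h4 : Z.mkQ (e • x) = Z.mkQ q := by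
            rw [← hzw, map_add, (Submodule.Quotient.mk_eq_zero Z).2 hz |> (fun h => (h : Z.mkQ z = 0)),
              zero_add]
          rw [h4, hgq q hqQ]
        obtain ⟨e', h5, h6⟩ := hQ.2 q hqQ hq0
        refine ⟨e' * e, ?_, ?_⟩
        · rw [mul_smul, h3]; exact h5
        · rw [mul_smul, h3]; exact h6
    · intro q hq
      exact ⟨Z.mkQ q, hgq q hq⟩
  -- the retraction
  let p : I →ₗ[E] Q := LinearMap.codRestrict Q (g.comp Z.mkQ) (by
    intro x
    rw [← hrange]
    exact ⟨Z.mkQ x, rfl⟩)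
  have hp : ∀ q : Q, p q = q := by
    intro q
    apply Subtype.ext
    exact hgq q q.2
  constructor
  intro X Y _ _ _ _ f hf h
  obtain ⟨k, hk⟩ := Module.Injective.out (R := E) (Q := I) f hf (Q.subtype.comp h)
  refine ⟨p.comp k, ?_⟩
  intro x
  rw [LinearMap.comp_apply, hk x]
  exact hp (h x)

end hull2

/-- existence of injective hulls -/
theorem exists_hull (E : Type) [Ring E] (D : Type) [AddCommGroup D] [Module E D] :
    ∃ (Q : Type) (_ : AddCommGroup Q) (_ : Module E Q), Module.Injective E Q ∧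
      ∃ j : D →ₗ[E] Q, Function.Injective j ∧
        ∀ x : Q, x ≠ 0 → ∃ (e : E) (d : D), d ≠ 0 ∧ e • x = j d := by
  obtain ⟨I, _, _, hI, j, hj⟩ := exists_injective_embedding E D
  obtain ⟨Q, hQ, hQi⟩ := exists_hull_sub (LinearMap.range j)
  refine ⟨Q, inferInstance, inferInstance, hQi,
    LinearMap.codRestrict Q j (fun d => hQ.1 ⟨d, rfl⟩), ?_, ?_⟩
  · intro a b hab
    apply hj
    exact congrArg Subtype.val hab
  · intro x hx
    obtain ⟨e, h1, ⟨d, hd⟩⟩ := hQ.2 x x.2 (fun h => hx (Subtype.ext h))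
    refine ⟨e, d, ?_, ?_⟩
    · rintro rfl
      apply h1
      rw [← hd, map_zero]
    · apply Subtype.ext
      exact hd.symm

end Pool.Agent.H80R2.GW
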