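import Pool.Agent.H80R2.GW.Loc
import Pool.Agent.H80R2.GW.Hull

set_option autoImplicit false

namespace Pool.Agent.H80R2.GW

section factor

variable {E : Type} [Ring E] {X Y Q : Type} [AddCommGroup X] [AddCommGroup Y] [AddCommGroup Q]
  [Module E X] [Module E Y] [Module E Q]

theorem factor [Module.Injective E Q] (Θ : X →ₗ[E] Y) (Φ : X →ₗ[E] Q)
    (h : LinearMap.ker Θ ≤ LinearMap.ker Φ) : ∃ Ψ : Y →ₗ[E] Q, ∀ x, Ψ (Θ x) = Φ x := by
  let Θ' : (X ⧸ LinearMap.ker Θ) →ₗ[E] Y := (LinearMap.ker Θ).liftQ Θ le_rfl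
  let Φ' : (X ⧸ LinearMap.ker Θ) →ₗ[E] Q := (LinearMap.ker Θ).liftQ Φ h
  have hinj : Function.Injective Θ' := by
    rw [← LinearMap.ker_eq_bot]
    exact Submodule.ker_liftQ_eq_bot _ _ _ le_rfl
  obtain ⟨Ψ, hΨ⟩ := Module.Injective.out (R := E) (Q := Q) Θ' hinj Φ'
  refine ⟨Ψ, fun x => ?_⟩
  have := hΨ (Submodule.Quotient.mk x)
  rw [Submodule.liftQ_apply, Submodule.liftQ_apply] at this
  exact this

end factor

section dual

variable {R : Type} [Ring R] {M : Type} [AddCommGroup M] [Module R M]
variable {Q : Type} [AddCommGroup Q] [Module (Module.End R M) Q]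

/-- left multiplication by an element of the ring, as a map linear over the endomorphism ring -/
def rmul (r : R) : M →ₗ[Module.End R M] M where
  toFun m := r • m
  map_add' := smul_add r
  map_smul' e m := by
    rw [RingHom.id_apply, Module.End.smul_def, Module.End.smul_def, map_smul]

theorem rmul_apply (r : R) (m : M) : rmul (R := R) r m = r • m := rfl

variable {S : Type} [Ring S]

/-- The module structure on the dual over a ring anti-isomorphic to `R`. -/
abbrev dualModule (σ : S ≃+* Rᵐᵒᵖ) : Module S (M →ₗ[Module.End R M] Q) where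
  smul s n := n.comp (rmul (σ s).unop)
  one_smul n := by
    ext m
    show n ((σ 1).unop • m) = n m
    rw [map_one, MulOpposite.unop_one, one_smul]
  mul_smul s s' n := by
    ext m
    show n ((σ (s * s')).unop • m) = n ((σ s').unop • (σ s).unop • m)
    rw [map_mul, MulOpposite.unop_mul, mul_smul]
  smul_zero s := by
    ext m
    rfl
  smul_add s n n' := by
    ext m
    rfl
  add_smul s s' n := by
    ext m
    show n ((σ (s + s')).unop • m) = n ((σ s).unop • m) + n ((σ s').unop • m)
    rw [map_add, MulOpposite.unop_add, add_smul, map_add]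
  zero_smul n := by
    ext m
    show n ((σ 0).unop • m) = 0
    rw [map_zero, MulOpposite.unop_zero, zero_smul, map_zero]

theorem single_rel [DecidableEq M] (ρ : M →₀ R) (m x : M) :
    relMap ρ (Pi.single m x) = ρ m • x := by
  rw [relMap_apply]
  have h1 : ρ.sum (fun m' r => r • (Pi.single m x : M → M) m') =
      ρ.sum (fun m' r => if m' = m then r • x else 0) := by
    apply Finsupp.sum_congr
    intro m' _
    by_cases h : m' = m
    · subst h
      simp
    · rw [Pi.single_eq_of_ne h, smul_zero, if_neg h]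
  rw [h1]
  rw [Finsupp.sum_ite_eq']
  by_cases h : m ∈ ρ.support
  · rw [if_pos h]
  · rw [if_neg h, Finsupp.notMem_support_iff.1 h, zero_smul]

/-- endomorphisms are the functions satisfying finitely many relations, on finite sets -/
theorem finite_rel [IsArtinian (Module.End R M) M] (F : Finset M) :
    ∃ s : Finset (M →₀ R), (∀ ρ ∈ s, IsRel ρ) ∧
      ∀ f : M → M, (∀ ρ ∈ s, relMap ρ f = 0) → ∃ e : Module.End R M, ∀ m ∈ F, f m = e m := by
  classical
  let res : (M → M) →ₗ[Module.End R M] (F → M) :=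
    LinearMap.pi (fun i : F => LinearMap.proj (i : M))
  let W : Finset (M →₀ R) → Submodule (Module.End R M) (F → M) := fun s =>
    Submodule.map res (⨅ ρ ∈ s, LinearMap.ker (relMap ρ))
  let 𝒮 : Set (Submodule (Module.End R M) (F → M)) :=
    {X | ∃ s : Finset (M →₀ R), (∀ ρ ∈ s, IsRel ρ) ∧ X = W s}
  have h𝒮 : 𝒮.Nonempty := ⟨W ∅, ∅, by simp, rfl⟩
  obtain ⟨X, ⟨s, hs, rfl⟩, hmin⟩ := WellFounded.has_min (IsWellFounded.wf (r := (· < ·))) 𝒮 h𝒮
  refine ⟨s, hs, ?_⟩
  intro f hf
  have hfs : res f ∈ W s := by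
    refine ⟨f, ?_, rfl⟩
    rw [SetLike.mem_coe, Submodule.mem_iInf]
    intro ρ
    rw [Submodule.mem_iInf]
    intro hρ
    exact hf ρ hρ
  let V : Submodule (Module.End R M) (M → M) := LinearMap.ker res
  have memV : ∀ h : M → M, h ∈ V ↔ ∀ m ∈ F, h m = 0 := by
    intro h
    constructor
    · intro hh m hm
      have : res h ⟨m, hm⟩ = 0 := by
        rw [LinearMap.mem_ker.1 hh]
        rfl
      exact this
    · intro hh
      rw [LinearMap.mem_ker]
      funext i
      exact hh i i.2
  let 𝓕 : Set ((M → M) × Submodule (Module.End R M) (M → M)) :=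
    {p | ∃ ρ : M →₀ R, IsRel ρ ∧ p = ((fun _ => 0), LinearMap.ker (relMap ρ))} ∪ {(f, V)}
  obtain ⟨g, hg⟩ := linCompact (E := Module.End R M) 𝓕 (by
    rintro p (⟨ρ, hρ, rfl⟩ | h)
    · exact op_relMap ρ
    · rw [Set.mem_singleton_iff] at h
      rw [h]
      exact ⟨F, fun h hh => (memV h).2 hh⟩) (by
    intro u hu
    let src : ((M → M) × Submodule (Module.End R M) (M → M)) → (M →₀ R) := fun p =>
      if h : ∃ ρ : M →₀ R, IsRel ρ ∧ p = ((fun _ => 0), LinearMap.ker (relMap ρ))
      then h.choose else 0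
    have hsrc : ∀ p, IsRel (src p) := by
      intro p
      by_cases h : ∃ ρ : M →₀ R, IsRel ρ ∧ p = ((fun _ => 0), LinearMap.ker (relMap ρ))
      · have h2 : src p = h.choose := by simp only [src, dif_pos h]
        rw [h2]
        exact h.choose_spec.1
      · have h2 : src p = 0 := by simp only [src, dif_neg h]
        rw [h2]
        exact Finsupp.sum_zero_index
    have hst : ∀ ρ ∈ s ∪ u.image src, IsRel ρ := by
      intro ρ hρ
      rcases Finset.mem_union.1 hρ with h | h
      · exact hs ρ h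
      · obtain ⟨p, _, rfl⟩ := Finset.mem_image.1 h
        exact hsrc p
    have hle : W (s ∪ u.image src) ≤ W s := by
      apply Submodule.map_mono
      refine le_iInf₂ fun ρ hρ => ?_
      exact iInf₂_le ρ (Finset.mem_union_left _ hρ)
    have heq : W (s ∪ u.image src) = W s := by
      by_contra hne
      exact hmin _ ⟨_, hst, rfl⟩ (lt_of_le_of_ne hle hne)
    rw [← heq] at hfs
    obtain ⟨f', hf', hff'⟩ := hfs
    rw [SetLike.mem_coe, Submodule.mem_iInf] at hf'
    refine ⟨f', ?_⟩
    intro p hp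
    rcases hu p hp with h | h
    · replace h : ∃ ρ : M →₀ R, IsRel ρ ∧ p = ((fun _ => 0), LinearMap.ker (relMap ρ)) := h
      have h2 : src p = h.choose := by simp only [src, dif_pos h]
      have h3 := h.choose_spec.2
      rw [h3]
      have h4 := hf' (src p)
      rw [Submodule.mem_iInf] at h4
      have h5 := h4 (Finset.mem_union_right _ (Finset.mem_image_of_mem _ hp))
      rw [h2] at h5
      show f' - (fun _ => 0) ∈ _
      have h6 : f' - (fun _ => (0 : M)) = f' := by funext m; simp
      rw [h6]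
      exact h5
    · rw [Set.mem_singleton_iff] at h
      rw [h]
      show f' - f ∈ V
      rw [LinearMap.mem_ker, map_sub, hff', sub_self])
  obtain ⟨e, he⟩ := exists_end_of_rel g (by
    intro ρ hρ
    have := hg ((fun _ => 0), LinearMap.ker (relMap ρ)) (Or.inl ⟨ρ, hρ, rfl⟩)
    have h2 : g - (fun _ => (0 : M)) = g := by funext m; simp
    rw [h2, LinearMap.mem_ker] at this
    exact this)
  refine ⟨e, fun m hm => ?_⟩
  have h1 := (memV _).1 (hg (f, V) (Or.inr rfl)) m hm
  rw [he m]
  have h2 : g m - f m = 0 := h1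
  exact (sub_eq_zero.1 h2).symm

/-- the key vanishing statement -/
theorem key_vanish [IsArtinian (Module.End R M) M] [Module.Injective (Module.End R M) Q]
    (c : (M →ₗ[Module.End R M] Q) →+ (M →ₗ[Module.End R M] Q))
    (hc : ∀ (r : R) (n : M →ₗ[Module.End R M] Q), c (n.comp (rmul r)) = (c n).comp (rmul r))
    (n : M →₀ (M →ₗ[Module.End R M] Q)) (hn : n.sum (fun m f => f m) = 0) :
    n.sum (fun m f => (c f) m) = 0 := by
  classical
  obtain ⟨s, hs, hsf⟩ := finite_rel (R := R) (M := M) n.support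
  let Φ : (M → M) →ₗ[Module.End R M] Q := ∑ m ∈ n.support, (n m).comp (LinearMap.proj m)
  have hΦ : ∀ f, Φ f = ∑ m ∈ n.support, (n m) (f m) := by
    intro f
    show (∑ m ∈ n.support, (n m).comp (LinearMap.proj m)) f = _
    rw [LinearMap.sum_apply]
    rfl
  let Θ : (M → M) →ₗ[Module.End R M] (s → M) := LinearMap.pi (fun ρ : s => relMap (ρ : M →₀ R))
  obtain ⟨Ψ, hΨ⟩ := factor Θ Φ (by
    intro f hf
    rw [LinearMap.mem_ker] at hf ⊢
    obtain ⟨e, he⟩ := hsf f (by
      intro ρ hρ
      exact congrFun hf ⟨ρ, hρ⟩)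
    rw [hΦ]
    have h1 : ∑ m ∈ n.support, (n m) (f m) = ∑ m ∈ n.support, e • (n m) m := by
      apply Finset.sum_congr rfl
      intro m hm
      rw [he m hm, ← map_smul]
      rfl
    rw [h1, ← Finset.smul_sum]
    have h2 : ∑ m ∈ n.support, (n m) m = 0 := hn
    rw [h2, smul_zero])
  let y : s → (M →ₗ[Module.End R M] Q) := fun ρ =>
    Ψ.comp (LinearMap.single (Module.End R M) (fun _ : s => M) ρ)
  have hny : ∀ m : M, n m = ∑ ρ : s, (y ρ).comp (rmul ((ρ : M →₀ R) m)) := by
    intro m
    ext x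
    have h1 := hΨ (Pi.single m x)
    rw [hΦ] at h1
    have h2 : ∑ m' ∈ n.support, (n m') ((Pi.single m x : M → M) m') = (n m) x := by
      have h3 : ∀ m' ∈ n.support, m' ≠ m → (n m') ((Pi.single m x : M → M) m') = 0 := by
        intro m' _ h
        rw [Pi.single_eq_of_ne h, map_zero]
      by_cases h : m ∈ n.support
      · rw [Finset.sum_eq_single_of_mem m h h3, Pi.single_eq_same]
      · rw [Finsupp.notMem_support_iff.1 h, LinearMap.zero_apply]
        apply Finset.sum_eq_zero
        intro m' hm'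
        apply h3 m' hm'
        rintro rfl
        exact h hm'
    rw [h2] at h1
    rw [← h1, LinearMap.sum_apply]
    have h4 : Θ (Pi.single m x) = ∑ ρ : s, Pi.single ρ ((ρ : M →₀ R) m • x) := by
      funext ρ
      rw [Finset.sum_apply]
      have h5 : ∀ ρ' : s, ρ' ≠ ρ → (Pi.single ρ' ((ρ' : M →₀ R) m • x) : s → M) ρ = 0 := by
        intro ρ' h
        rw [Pi.single_eq_of_ne h.symm]
      rw [Finset.sum_eq_single ρ (fun ρ' _ h => h5 ρ' h)
        (fun h => absurd (Finset.mem_univ _) h), Pi.single_eq_same]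
      exact single_rel _ _ _
    rw [h4, map_sum]
    rfl
  let G : Finset M := n.support ∪ s.biUnion (fun ρ => ρ.support)
  have hG : n.sum (fun m f => (c f) m) = ∑ m ∈ G, (c (n m)) m := by
    apply Finset.sum_subset Finset.subset_union_left
    intro m _ hm
    show (c (n m)) m = 0
    rw [Finsupp.notMem_support_iff.1 hm, map_zero, LinearMap.zero_apply]
  rw [hG]
  have h1 : ∀ m ∈ G, (c (n m)) m = ∑ ρ : s, (c (y ρ)) ((ρ : M →₀ R) m • m) := by
    intro m _
    conv_lhs => rw [hny m]
    rw [map_sum, LinearMap.sum_apply]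
    apply Finset.sum_congr rfl
    intro ρ _
    rw [hc]
    rfl
  rw [Finset.sum_congr rfl h1, Finset.sum_comm]
  apply Finset.sum_eq_zero
  intro ρ _
  rw [← map_sum]
  have h2 : ∑ m ∈ G, (ρ : M →₀ R) m • m = 0 := by
    have h3 : (ρ : M →₀ R).sum (fun m r => r • m) = ∑ m ∈ G, (ρ : M →₀ R) m • m := by
      apply Finset.sum_subset
      · intro m hm
        exact Finset.mem_union_right _ (Finset.mem_biUnion.2 ⟨ρ, ρ.2, hm⟩)
      · intro m _ hm
        show (ρ : M →₀ R) m • m = 0
        rw [Finsupp.notMem_support_iff.1 hm, zero_smul]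
    rw [← h3]
    exact hs ρ ρ.2
  rw [h2, map_zero]

/-- every endomorphism of the dual is given by postcomposition -/
theorem exists_post [IsArtinian (Module.End R M) M] [Module.Injective (Module.End R M) Q]
    (c : (M →ₗ[Module.End R M] Q) →+ (M →ₗ[Module.End R M] Q))
    (hc : ∀ (r : R) (n : M →ₗ[Module.End R M] Q), c (n.comp (rmul r)) = (c n).comp (rmul r)) :
    ∃ q : Q →ₗ[Module.End R M] Q, ∀ n, c n = q.comp n := by
  classical
  let ev : ((M →ₗ[Module.End R M] Q) →₀ M) →ₗ[Module.End R M] Q :=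
    Finsupp.lsum ℕ (fun n : M →ₗ[Module.End R M] Q => n)
  let evc : ((M →ₗ[Module.End R M] Q) →₀ M) →ₗ[Module.End R M] Q :=
    Finsupp.lsum ℕ (fun n : M →ₗ[Module.End R M] Q => c n)
  obtain ⟨q, hq⟩ := factor ev evc (by
    intro w hw
    rw [LinearMap.mem_ker] at hw ⊢
    have h1 : w.sum (fun n m => n m) = 0 := hw
    show w.sum (fun n m => (c n) m) = 0
    have key : ∀ c' : (M →ₗ[Module.End R M] Q) →+ (M →ₗ[Module.End R M] Q),
        (w.sum (fun n m => (Finsupp.single m n : M →₀ (M →ₗ[Module.End R M] Q)))).sum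
          (fun m f => (c' f) m) = w.sum (fun n m => (c' n) m) := by
      intro c'
      rw [Finsupp.sum_sum_index (fun m => by rw [map_zero, LinearMap.zero_apply])
        (fun m f g => by rw [map_add, LinearMap.add_apply])]
      apply Finsupp.sum_congr
      intro n _
      rw [Finsupp.sum_single_index (by rw [map_zero, LinearMap.zero_apply])]
    rw [← key c]
    apply key_vanish c hc
    have := key (AddMonoidHom.id _)
    simp only [AddMonoidHom.id_apply] at this
    rw [this]
    exact h1)
  refine ⟨q, fun n => ?_⟩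
  ext m
  have h1 := hq (Finsupp.single n m)
  have h2 : ev (Finsupp.single n m) = n m := by
    show Finsupp.lsum ℕ _ (Finsupp.single n m) = _
    rw [Finsupp.lsum_single]
  have h3 : evc (Finsupp.single n m) = (c n) m := by
    show Finsupp.lsum ℕ _ (Finsupp.single n m) = _
    rw [Finsupp.lsum_single]
  rw [h2, h3] at h1
  rw [← h1]
  rfl

end dual

end Pool.Agent.H80R2.GW
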