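import Pool.Agent.H80R2.GW.LinCompact

set_option autoImplicit false

namespace Pool.Agent.H80R2.GW

universe u v w

section endo

variable {R : Type u} [Ring R] {M : Type v} [AddCommGroup M] [Module R M]

/-- the map sending a function `f : M → M` to `∑ ρ m • f m` -/
def relMap (ρ : M →₀ R) : (M → M) →ₗ[Module.End R M] M where
  toFun f := ρ.sum (fun m r => r • f m)
  map_add' f g := by
    rw [← Finsupp.sum_add]
    exact Finsupp.sum_congr (fun m _ => by rw [Pi.add_apply, smul_add])
  map_smul' e f := by
    rw [RingHom.id_apply, Module.End.smul_def, map_finsuppSum]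
    exact Finsupp.sum_congr (fun m _ => by
      rw [Pi.smul_apply, Module.End.smul_def, map_smul])

theorem relMap_apply (ρ : M →₀ R) (f : M → M) :
    relMap ρ f = ρ.sum (fun m r => r • f m) := rfl

/-- `ρ` is a linear relation between the elements of `M` -/
def IsRel (ρ : M →₀ R) : Prop := ρ.sum (fun m r => r • m) = 0

theorem relMap_end (ρ : M →₀ R) (hρ : IsRel ρ) (e : Module.End R M) :
    relMap ρ (fun m => e m) = 0 := by
  rw [relMap_apply]
  have : ρ.sum (fun m r => r • e m) = e (ρ.sum (fun m r => r • m)) := by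
    rw [map_finsuppSum]
    exact Finsupp.sum_congr (fun m _ => by rw [map_smul])
  rw [this, hρ, map_zero]

theorem op_relMap (ρ : M →₀ R) : Op (LinearMap.ker (relMap ρ)) := by
  refine ⟨ρ.support, ?_⟩
  intro h hh
  rw [LinearMap.mem_ker, relMap_apply]
  apply Finset.sum_eq_zero
  intro m hm
  show ρ m • h m = 0
  rw [hh m hm, smul_zero]

theorem sum_single_smul (f : M → M) (x : M) (r : R) :
    (Finsupp.single x r).sum (fun m s => s • f m) = r • f x :=
  Finsupp.sum_single_index (zero_smul _ _)

theorem sum_single_smul' (x : M) (r : R) :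
    (Finsupp.single x r).sum (fun m s => s • m) = r • x :=
  Finsupp.sum_single_index (zero_smul _ _)

/-- a function satisfying all the linear relations is an endomorphism -/
theorem exists_end_of_rel (f : M → M) (hf : ∀ ρ : M →₀ R, IsRel ρ → relMap ρ f = 0) :
    ∃ e : Module.End R M, ∀ m, e m = f m := by
  classical
  have hsmul : ∀ (r : R) (x : M), f (r • x) = r • f x := by
    intro r x
    have h1 := hf (Finsupp.single (r • x) 1 - Finsupp.single x r) (by
      show (Finsupp.single (r • x) (1 : R) - Finsupp.single x r).sum (fun m r => r • m) = 0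
      rw [Finsupp.sum_sub_index (fun a b₁ b₂ => sub_smul b₁ b₂ a),
        sum_single_smul', sum_single_smul', one_smul, sub_self])
    rw [relMap_apply, Finsupp.sum_sub_index (fun a b₁ b₂ => sub_smul b₁ b₂ (f a)),
      sum_single_smul, sum_single_smul, one_smul, sub_eq_zero] at h1
    exact h1
  have hadd : ∀ (x y : M), f (x + y) = f x + f y := by
    intro x y
    have h1 := hf (Finsupp.single (x + y) 1 - (Finsupp.single x 1 + Finsupp.single y 1)) (by
      show (Finsupp.single (x + y) (1 : R) -
        (Finsupp.single x 1 + Finsupp.single y 1)).sum (fun m r => r • m) = 0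
      rw [Finsupp.sum_sub_index (fun a b₁ b₂ => sub_smul b₁ b₂ a),
        Finsupp.sum_add_index' (fun a => zero_smul _ a) (fun a b₁ b₂ => add_smul b₁ b₂ a),
        sum_single_smul', sum_single_smul', sum_single_smul',
        one_smul, one_smul, one_smul, sub_self])
    rw [relMap_apply, Finsupp.sum_sub_index (fun a b₁ b₂ => sub_smul b₁ b₂ (f a)),
        Finsupp.sum_add_index' (fun a => zero_smul _ (f a)) (fun a b₁ b₂ => add_smul b₁ b₂ (f a)),
        sum_single_smul, sum_single_smul, sum_single_smul,
        one_smul, one_smul, one_smul, sub_eq_zero] at h1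
    exact h1
  exact ⟨{ toFun := f, map_add' := hadd, map_smul' := hsmul }, fun m => rfl⟩

/-- closed left ideals of the endomorphism ring -/
def Cl (A : Submodule (Module.End R M) (Module.End R M)) : Prop :=
  ∀ f : Module.End R M, (∀ F : Finset M, ∃ a ∈ A, ∀ m ∈ F, a m = f m) → f ∈ A

/-- functions agreeing on `F` with an element of `A` -/
def nbhd (A : Submodule (Module.End R M) (Module.End R M)) (F : Finset M) :
    Submodule (Module.End R M) (M → M) where
  carrier := {h | ∃ a ∈ A, ∀ m ∈ F, h m = a m}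
  add_mem' := by
    rintro f g ⟨a, ha, h1⟩ ⟨b, hb, h2⟩
    exact ⟨a + b, A.add_mem ha hb, fun m hm => by
      rw [Pi.add_apply, h1 m hm, h2 m hm, LinearMap.add_apply]⟩
  zero_mem' := ⟨0, A.zero_mem, fun m _ => rfl⟩
  smul_mem' := by
    rintro e f ⟨a, ha, h1⟩
    exact ⟨e • a, A.smul_mem e ha, fun m hm => by
      rw [Pi.smul_apply, h1 m hm, smul_eq_mul, Module.End.mul_apply, Module.End.smul_def]⟩

/-- linear compactness of the endomorphism ring -/
theorem lcE [IsArtinian (Module.End R M) M]
    (𝓕 : Set (Module.End R M × Submodule (Module.End R M) (Module.End R M)))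
    (hcl : ∀ p ∈ 𝓕, Cl p.2)
    (hfip : ∀ s : Finset (Module.End R M × Submodule (Module.End R M) (Module.End R M)),
      (∀ p ∈ s, p ∈ 𝓕) → ∃ f : Module.End R M, ∀ p ∈ s, f - p.1 ∈ p.2) :
    ∃ f : Module.End R M, ∀ p ∈ 𝓕, f - p.1 ∈ p.2 := by
  classical
  let 𝓖 : Set ((M → M) × Submodule (Module.End R M) (M → M)) :=
    {q | ∃ p ∈ 𝓕, ∃ F : Finset M, q = ((fun m => p.1 m), nbhd p.2 F)} ∪
    {q | ∃ ρ : M →₀ R, IsRel ρ ∧ q = ((fun _ => 0), LinearMap.ker (relMap ρ))}
  obtain ⟨f, hf⟩ := linCompact (E := Module.End R M) 𝓖 (by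
    rintro q (⟨p, hp, F, rfl⟩ | ⟨ρ, hρ, rfl⟩)
    · exact ⟨F, fun h hh => ⟨0, p.2.zero_mem, fun m hm => by rw [hh m hm]; rfl⟩⟩
    · exact op_relMap ρ) (by
    intro s hs
    let src : ((M → M) × Submodule (Module.End R M) (M → M)) →
        Module.End R M × Submodule (Module.End R M) (Module.End R M) := fun q =>
      if h : ∃ p, p ∈ 𝓕 ∧ ∃ F : Finset M, q = ((fun m => p.1 m), nbhd p.2 F)
      then h.choose else (0, ⊤)
    obtain ⟨e, he⟩ := hfip ((s.filter (fun q => ∃ p, p ∈ 𝓕 ∧ ∃ F : Finset M,
        q = ((fun m => p.1 m), nbhd p.2 F))).image src) (by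
      intro p hp
      obtain ⟨q, hq, rfl⟩ := Finset.mem_image.1 hp
      have h := (Finset.mem_filter.1 hq).2
      simp only [src, dif_pos h]
      exact h.choose_spec.1)
    refine ⟨fun m => e m, ?_⟩
    intro q hq
    by_cases h : ∃ p, p ∈ 𝓕 ∧ ∃ F : Finset M, q = ((fun m => p.1 m), nbhd p.2 F)
    · have h1 := he (src q) (Finset.mem_image_of_mem _ (Finset.mem_filter.2 ⟨hq, h⟩))
      have h2 : src q = h.choose := by simp only [src, dif_pos h]
      rw [h2] at h1
      obtain ⟨F, hF⟩ := h.choose_spec.2
      rw [hF]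
      exact ⟨_, h1, fun m _ => rfl⟩
    · rcases hs q hq with ⟨p, hp, F, hF⟩ | ⟨ρ, hρ, rfl⟩
      · exact absurd ⟨p, hp, F, hF⟩ h
      · show (fun m => e m) - (fun _ => 0) ∈ LinearMap.ker (relMap ρ)
        have : (fun m => e m) - (fun _ => (0 : M)) = fun m => e m := by
          funext m; simp
        rw [this, LinearMap.mem_ker]
        exact relMap_end ρ hρ e)
  obtain ⟨e, he⟩ := exists_end_of_rel f (by
    intro ρ hρ
    have := hf ((fun _ => 0), LinearMap.ker (relMap ρ)) (Or.inr ⟨ρ, hρ, rfl⟩)
    have h2 : f - (fun _ => (0 : M)) = f := by funext m; simp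
    rw [h2, LinearMap.mem_ker] at this
    exact this)
  refine ⟨e, fun p hp => ?_⟩
  apply hcl p hp
  intro F
  obtain ⟨a, ha, h1⟩ := hf ((fun m => p.1 m), nbhd p.2 F) (Or.inl ⟨p, hp, F, rfl⟩)
  refine ⟨a, ha, fun m hm => ?_⟩
  rw [← h1 m hm]
  show f m - p.1 m = (e - p.1) m
  rw [LinearMap.sub_apply, he m]

theorem cl_inf {A B : Submodule (Module.End R M) (Module.End R M)} (hA : Cl A) (hB : Cl B) :
    Cl (A ⊓ B) := by
  intro f hf
  refine ⟨hA f fun F => ?_, hB f fun F => ?_⟩
  · obtain ⟨a, ha, h⟩ := hf F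
    exact ⟨a, ha.1, h⟩
  · obtain ⟨a, ha, h⟩ := hf F
    exact ⟨a, ha.2, h⟩

theorem cl_sInf (S : Set (Submodule (Module.End R M) (Module.End R M))) (h : ∀ A ∈ S, Cl A) :
    Cl (sInf S) := by
  intro f hf
  rw [Submodule.mem_sInf]
  intro A hA
  apply h A hA
  intro F
  obtain ⟨a, ha, h1⟩ := hf F
  exact ⟨a, (Submodule.mem_sInf.1 ha) A hA, h1⟩

/-- elements `x` with `x * a` vanishing on `F` -/
def annR (a : Module.End R M) (F : Set M) : Submodule (Module.End R M) (Module.End R M) where
  carrier := {x | ∀ m ∈ F, x (a m) = 0}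
  add_mem' := by
    intro x y hx hy m hm
    rw [LinearMap.add_apply, hx m hm, hy m hm, add_zero]
  zero_mem' := fun m _ => rfl
  smul_mem' := by
    intro e x hx m hm
    rw [smul_eq_mul, Module.End.mul_apply, hx m hm, map_zero]

theorem cl_annR (a : Module.End R M) (F : Set M) : Cl (annR a F) := by
  classical
  intro f hf m hm
  obtain ⟨x, hx, h⟩ := hf {a m}
  rw [← h (a m) (Finset.mem_singleton_self _)]
  exact hx m hm

/-- the left ideal `A * a` -/
def mulR (A : Submodule (Module.End R M) (Module.End R M)) (a : Module.End R M) :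
    Submodule (Module.End R M) (Module.End R M) where
  carrier := {f | ∃ x ∈ A, x * a = f}
  add_mem' := by
    rintro _ _ ⟨x, hx, rfl⟩ ⟨y, hy, rfl⟩
    exact ⟨x + y, A.add_mem hx hy, add_mul x y a⟩
  zero_mem' := ⟨0, A.zero_mem, zero_mul a⟩
  smul_mem' := by
    rintro e _ ⟨x, hx, rfl⟩
    exact ⟨e • x, A.smul_mem e hx, by rw [smul_eq_mul, smul_eq_mul, mul_assoc]⟩

theorem cl_mulR [IsArtinian (Module.End R M) M]
    {A : Submodule (Module.End R M) (Module.End R M)} (hA : Cl A) (a : Module.End R M) :
    Cl (mulR A a) := by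
  classical
  intro f hf
  have hf' : ∀ F : Finset M, ∃ x : Module.End R M, x ∈ A ∧ ∀ m ∈ F, x (a m) = f m := by
    intro F
    obtain ⟨_, ⟨x, hx, rfl⟩, h⟩ := hf F
    exact ⟨x, hx, h⟩
  choose x hxA hx using hf'
  obtain ⟨y, hy⟩ := lcE (R := R) (M := M)
    {p | ∃ F : Finset M, p = (x F, A ⊓ annR a (F : Set M))} (by
      rintro p ⟨F, rfl⟩
      exact cl_inf hA (cl_annR a _)) (by
      intro s hs
      let src : Module.End R M × Submodule (Module.End R M) (Module.End R M) → Finset M :=
        fun p => if h : ∃ F : Finset M, p = (x F, A ⊓ annR a (F : Set M)) then h.choose else ∅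
      refine ⟨x (s.biUnion src), ?_⟩
      intro p hp
      obtain ⟨F, hF⟩ := hs p hp
      have h : ∃ F : Finset M, p = (x F, A ⊓ annR a (F : Set M)) := ⟨F, hF⟩
      have h1 := h.choose_spec
      have h2 : src p = h.choose := by simp only [src, dif_pos h]
      rw [← h2] at h1
      rw [h1]
      refine ⟨A.sub_mem (hxA _) (hxA _), ?_⟩
      intro m hm
      have hm' : m ∈ src p := hm
      rw [LinearMap.sub_apply, hx (src p) m hm', hx _ m, sub_self]
      exact Finset.mem_biUnion.2 ⟨p, hp, hm'⟩)
  refine ⟨y, ?_, ?_⟩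
  · have h1 := hy (x ∅, A ⊓ annR a ((∅ : Finset M) : Set M)) ⟨∅, rfl⟩
    have h2 := A.add_mem h1.1 (hxA ∅)
    rwa [sub_add_cancel] at h2
  · ext m
    have h1 := hy (x {m}, A ⊓ annR a (({m} : Finset M) : Set M)) ⟨{m}, rfl⟩
    have h2 := h1.2 m (by simp)
    show y (a m) = f m
    rw [← hx {m} m (Finset.mem_singleton_self m)]
    exact sub_eq_zero.1 (by rw [← LinearMap.sub_apply]; exact h2)

/-- Zorn: minimal closed left ideals below a given one which meet a closed coset `g + L`. -/
theorem exists_min_cl [IsArtinian (Module.End R M) M] (g : Module.End R M)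
    (L U : Submodule (Module.End R M) (Module.End R M)) (hL : Cl L) (hU : Cl U)
    (hUL : ∃ a ∈ U, a - g ∈ L) :
    ∃ A : Submodule (Module.End R M) (Module.End R M), Cl A ∧ A ≤ U ∧ (∃ a ∈ A, a - g ∈ L) ∧
      ∀ B : Submodule (Module.End R M) (Module.End R M), Cl B → B ≤ A →
        (∃ a ∈ B, a - g ∈ L) → B = A := by
  classical
  let S : Set (Submodule (Module.End R M) (Module.End R M))ᵒᵈ :=
    {A | Cl (OrderDual.ofDual A) ∧ OrderDual.ofDual A ≤ U ∧
      ∃ a ∈ OrderDual.ofDual A, a - g ∈ L}
  obtain ⟨A, -, hmax⟩ := zorn_le_nonempty₀ S (by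
    intro c hc hchain A0 hA0
    let C : Set (Submodule (Module.End R M) (Module.End R M)) := {A | OrderDual.toDual A ∈ c}
    refine ⟨OrderDual.toDual (sInf C), ⟨?_, ?_, ?_⟩, ?_⟩
    · exact cl_sInf C (fun A hA => (hc hA).1)
    · exact le_trans (sInf_le (show OrderDual.ofDual A0 ∈ C from hA0)) (hc hA0).2.1
    · obtain ⟨f, hf⟩ := lcE (R := R) (M := M)
        ({p | ∃ A ∈ C, p = ((0 : Module.End R M), A)} ∪ {(g, L)}) (by
          rintro p (⟨A, hA, rfl⟩ | h)
          · exact (hc hA).1
          · rw [Set.mem_singleton_iff] at h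
            rw [h]
            exact hL) (by
          intro s hs
          -- choose the smallest member of the chain occurring in `s`
          have key : ∀ t : Finset (Module.End R M × Submodule (Module.End R M) (Module.End R M)),
              (∀ p ∈ t, p ∈ ({p | ∃ A ∈ C, p = ((0 : Module.End R M), A)} ∪ {(g, L)} : Set _)) →
              ∃ A ∈ C, ∀ p ∈ t, p = (g, L) ∨ (p.1 = 0 ∧ A ≤ p.2) := by
            intro t
            induction t using Finset.induction_on with
            | empty => exact fun _ => ⟨OrderDual.ofDual A0, hA0, by simp⟩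
            | insert p t hpt ih =>
              intro ht
              obtain ⟨A, hA, hAt⟩ := ih (fun q hq => ht q (Finset.mem_insert_of_mem hq))
              rcases ht p (Finset.mem_insert_self _ _) with ⟨B, hB, rfl⟩ | h
              · rcases hchain.total (show OrderDual.toDual A ∈ c from hA)
                  (show OrderDual.toDual B ∈ c from hB) with h1 | h1
                · have h1' : B ≤ A := h1
                  refine ⟨B, hB, ?_⟩
                  intro q hq
                  rcases Finset.mem_insert.1 hq with rfl | hq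
                  · exact Or.inr ⟨rfl, le_rfl⟩
                  · rcases hAt q hq with h2 | h2
                    · exact Or.inl h2
                    · exact Or.inr ⟨h2.1, le_trans h1' h2.2⟩
                · have h1' : A ≤ B := h1
                  refine ⟨A, hA, ?_⟩
                  intro q hq
                  rcases Finset.mem_insert.1 hq with rfl | hq
                  · exact Or.inr ⟨rfl, h1'⟩
                  · exact hAt q hq
              · rw [Set.mem_singleton_iff] at h
                refine ⟨A, hA, ?_⟩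
                intro q hq
                rcases Finset.mem_insert.1 hq with rfl | hq
                · exact Or.inl h
                · exact hAt q hq
          obtain ⟨A, hA, hAs⟩ := key s hs
          obtain ⟨a, ha, hag⟩ := (hc hA).2.2
          refine ⟨a, ?_⟩
          intro p hp
          rcases hAs p hp with rfl | ⟨h1, h2⟩
          · exact hag
          · rw [h1, sub_zero]
            exact h2 ha)
      refine ⟨f, ?_, ?_⟩
      · show f ∈ sInf C
        rw [Submodule.mem_sInf]
        intro A hA
        have := hf (0, A) (Or.inl ⟨A, hA, rfl⟩)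
        rwa [sub_zero] at this
      · exact hf (g, L) (Or.inr rfl)
    · intro A hA
      exact sInf_le (show OrderDual.ofDual A ∈ C from hA)) (OrderDual.toDual U)
      ⟨hU, le_rfl, hUL⟩
  refine ⟨OrderDual.ofDual A, hmax.1.1, hmax.1.2.1, hmax.1.2.2, ?_⟩
  intro B hB hBA hex
  have h1 : OrderDual.toDual B ∈ S := ⟨hB, le_trans hBA hmax.1.2.1, hex⟩
  have h2 : A ≤ OrderDual.toDual B := hBA
  have h3 := hmax.2 h1 h2
  exact le_antisymm hBA h3

end endo

end Pool.Agent.H80R2.GW
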