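import Mathlib

set_option autoImplicit false

namespace Pool.Agent.H80R2.GW

universe u v w

section lc

variable {E : Type u} [Ring E] {M : Type v} [AddCommGroup M] [Module E M] {I : Type w}

/-- A submodule of a power of `M` containing all functions which vanish on some finite set. -/
def Op (K : Submodule E (I → M)) : Prop :=
  ∃ F : Finset I, ∀ h : I → M, (∀ i ∈ F, h i = 0) → h ∈ K

/-- finite intersection property for a family of cosets -/
def FIP (𝓕 : Set ((I → M) × Submodule E (I → M))) : Prop :=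
  ∀ s : Finset ((I → M) × Submodule E (I → M)), (∀ p ∈ s, p ∈ 𝓕) →
    ∃ f : I → M, ∀ p ∈ s, f - p.1 ∈ p.2

theorem exists_value [IsArtinian E M] (𝓕 : Set ((I → M) × Submodule E (I → M)))
    (h : FIP 𝓕) (i : I) :
    ∃ y : M, ∀ s : Finset ((I → M) × Submodule E (I → M)), (∀ p ∈ s, p ∈ 𝓕) →
      ∃ f : I → M, (∀ p ∈ s, f - p.1 ∈ p.2) ∧ f i = y := by
  classical
  let W : Finset ((I → M) × Submodule E (I → M)) → Submodule E M := fun s =>
    Submodule.map (LinearMap.proj i) (⨅ p ∈ s, p.2)
  let S : Set (Submodule E M) := {X | ∃ s : Finset ((I → M) × Submodule E (I → M)),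
    (∀ p ∈ s, p ∈ 𝓕) ∧ X = W s}
  have hS : S.Nonempty := ⟨W ∅, ∅, by simp, rfl⟩
  obtain ⟨X, ⟨s, hs, rfl⟩, hmin⟩ := WellFounded.has_min (IsWellFounded.wf (r := (· < ·))) S hS
  obtain ⟨f0, hf0⟩ := h s hs
  refine ⟨f0 i, ?_⟩
  intro t ht
  have hst : ∀ p ∈ s ∪ t, p ∈ 𝓕 := by
    intro p hp
    rcases Finset.mem_union.1 hp with hp | hp
    · exact hs p hp
    · exact ht p hp
  obtain ⟨f1, hf1⟩ := h (s ∪ t) hst
  have hle : W (s ∪ t) ≤ W s := by
    apply Submodule.map_mono
    refine le_iInf₂ fun p hp => ?_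
    exact iInf₂_le p (Finset.mem_union_left t hp)
  have heq : W (s ∪ t) = W s := by
    by_contra hne
    exact hmin (W (s ∪ t)) ⟨s ∪ t, hst, rfl⟩ (lt_of_le_of_ne hle hne)
  have hmem : f1 i - f0 i ∈ W s := by
    refine ⟨f1 - f0, ?_, rfl⟩
    rw [SetLike.mem_coe, Submodule.mem_iInf]
    intro p
    rw [Submodule.mem_iInf]
    intro hp
    have h1 := hf1 p (Finset.mem_union_left t hp)
    have h2 := hf0 p hp
    have : f1 - f0 = (f1 - p.1) - (f0 - p.1) := by abel
    rw [this]
    exact p.2.sub_mem h1 h2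
  rw [← heq] at hmem
  obtain ⟨g, hg, hgi⟩ := hmem
  rw [SetLike.mem_coe, Submodule.mem_iInf] at hg
  refine ⟨f1 - g, ?_, ?_⟩
  · intro p hp
    have hg' := hg p
    rw [Submodule.mem_iInf] at hg'
    have h3 := hg' (Finset.mem_union_right s hp)
    have h1 := hf1 p (Finset.mem_union_right s hp)
    have : f1 - g - p.1 = (f1 - p.1) - g := by abel
    rw [this]
    exact p.2.sub_mem h1 h3
  · have : g i = f1 i - f0 i := hgi
    rw [Pi.sub_apply, this]
    abel

/-- Powers of an artinian module are linearly compact. -/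
theorem linCompact [IsArtinian E M] (𝓕 : Set ((I → M) × Submodule E (I → M)))
    (hop : ∀ p ∈ 𝓕, Op p.2) (h : FIP 𝓕) :
    ∃ f : I → M, ∀ p ∈ 𝓕, f - p.1 ∈ p.2 := by
  classical
  let P : Set (Set ((I → M) × Submodule E (I → M))) := {𝓖 | (∀ p ∈ 𝓖, Op p.2) ∧ FIP 𝓖}
  obtain ⟨𝓖, hsub, hmax⟩ := zorn_subset_nonempty P (by
    intro c hc hchain hne
    refine ⟨⋃₀ c, ⟨?_, ?_⟩, fun s hs => Set.subset_sUnion_of_mem hs⟩
    · rintro p ⟨𝓗, h1, h2⟩
      exact (hc h1).1 p h2
    · intro s hs
      have : ∃ 𝓗 ∈ c, ∀ p ∈ s, p ∈ 𝓗 := by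
        have hd : DirectedOn (· ⊆ ·) c := hchain.directedOn
        have := DirectedOn.exists_mem_subset_of_finset_subset_biUnion (f := fun x => x)
          (s := s) hne hd ?_
        · obtain ⟨𝓗, h1, h2⟩ := this
          exact ⟨𝓗, h1, fun p hp => h2 hp⟩
        · intro p hp
          have := hs p hp
          rw [Set.sUnion_eq_biUnion] at this
          exact this
      obtain ⟨𝓗, h1, h2⟩ := this
      exact (hc h1).2 s h2) 𝓕 ⟨hop, h⟩
  obtain ⟨hP, hmax'⟩ := hmax
  choose y hy using fun i => exists_value 𝓖 hP.2 i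
  -- the coset of functions with value `y i` at `i`
  let c : I → ((I → M) × Submodule E (I → M)) := fun i =>
    (y, LinearMap.ker (LinearMap.proj (R := E) (φ := fun _ : I => M) i))
  have hc : ∀ i, c i ∈ 𝓖 := by
    intro i
    have hins : insert (c i) 𝓖 ∈ P := by
      constructor
      · intro p hp
        rcases hp with rfl | hp
        · refine ⟨{i}, ?_⟩
          intro g hg
          have := hg i (Finset.mem_singleton_self i)
          simpa [c] using this
        · exact hP.1 p hp
      · intro s hs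
        obtain ⟨f, hf, hfi⟩ := hy i (s.erase (c i)) (by
          intro p hp
          rcases hs p (Finset.mem_of_mem_erase hp) with h1 | h1
          · exact absurd h1 (Finset.ne_of_mem_erase hp)
          · exact h1)
        refine ⟨f, ?_⟩
        intro p hp
        by_cases hpc : p = c i
        · subst hpc
          show f - y ∈ LinearMap.ker _
          rw [LinearMap.mem_ker]
          show (f - y) i = 0
          rw [Pi.sub_apply, hfi, sub_self]
        · exact hf p (Finset.mem_erase.2 ⟨hpc, hp⟩)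
    exact hmax' hins (Set.subset_insert _ _) (Set.mem_insert _ _)
  refine ⟨y, ?_⟩
  intro p hp
  have hp' := hsub hp
  obtain ⟨F, hF⟩ := hP.1 p hp'
  obtain ⟨g, hg⟩ := hP.2 (insert p (F.image c)) (by
    intro q hq
    rcases Finset.mem_insert.1 hq with rfl | hq
    · exact hp'
    · obtain ⟨i, -, rfl⟩ := Finset.mem_image.1 hq
      exact hc i)
  have h1 := hg p (Finset.mem_insert_self _ _)
  have h2 : y - g ∈ p.2 := by
    apply hF
    intro i hi
    have := hg (c i) (Finset.mem_insert_of_mem (Finset.mem_image_of_mem c hi))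
    have h3 : (g - y) i = 0 := this
    rw [Pi.sub_apply] at h3 ⊢
    rw [← neg_sub, h3, neg_zero]
  have : y - p.1 = (y - g) + (g - p.1) := by abel
  rw [this]
  exact p.2.add_mem h2 h1

end lc

end Pool.Agent.H80R2.GW
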