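import Pool.Agent.H80R2.GW.EndLC

set_option autoImplicit false

namespace Pool.Agent.H80R2.GW

universe u v w

section loc

variable {R : Type u} [Ring R] {M : Type v} [AddCommGroup M] [Module R M]

theorem idem_trivial
    (hind : ∀ N₁ N₂ : Submodule R M, IsCompl N₁ N₂ → N₁ = ⊥ ∨ N₂ = ⊥)
    (a : Module.End R M) (ha : a * a = a) : a = 0 ∨ a = 1 := by
  have haa : ∀ x, a (a x) = a x := fun x => by
    rw [← Module.End.mul_apply, ha]
  have hc : IsCompl (LinearMap.range a) (LinearMap.ker a) := by
    constructor
    · rw [Submodule.disjoint_def]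
      rintro x ⟨y, rfl⟩ hx
      rw [LinearMap.mem_ker, haa] at hx
      exact hx
    · rw [codisjoint_iff, Submodule.eq_top_iff']
      intro x
      rw [Submodule.mem_sup]
      refine ⟨a x, ⟨x, rfl⟩, x - a x, ?_, by abel⟩
      rw [LinearMap.mem_ker, map_sub, haa, sub_self]
  rcases hind _ _ hc with h | h
  · left
    ext x
    have : a x ∈ LinearMap.range a := ⟨x, rfl⟩
    rw [h, Submodule.mem_bot] at this
    rw [this, LinearMap.zero_apply]
  · right
    ext x
    have : x - a x ∈ LinearMap.ker a := by
      rw [LinearMap.mem_ker, map_sub, haa, sub_self]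
    rw [h, Submodule.mem_bot, sub_eq_zero] at this
    rw [Module.End.one_apply, ← this]

/-- one sided invertible endomorphisms are invertible -/
theorem isUnit_of_left_inv
    (hind : ∀ N₁ N₂ : Submodule R M, IsCompl N₁ N₂ → N₁ = ⊥ ∨ N₂ = ⊥)
    (hne : (1 : Module.End R M) ≠ 0)
    (f g : Module.End R M) (h : g * f = 1) : IsUnit f := by
  have h1 : (f * g) * (f * g) = f * g := by
    rw [mul_assoc, ← mul_assoc g f g, h, one_mul]
  rcases idem_trivial hind _ h1 with h2 | h2
  · exfalso
    apply hne
    calc (1 : Module.End R M) = (g * f) * (g * f) := by rw [h, one_mul]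
      _ = g * (f * g) * f := by simp only [mul_assoc]
      _ = 0 := by rw [h2, mul_zero, zero_mul]
  · exact ⟨⟨f, g, h2, h⟩, rfl⟩

/-- The endomorphism ring of an indecomposable module which is artinian over it is local. -/
theorem isUnit_of_apply_ne [IsArtinian (Module.End R M) M]
    (hind : ∀ N₁ N₂ : Submodule R M, IsCompl N₁ N₂ → N₁ = ⊥ ∨ N₂ = ⊥)
    (t : M) (ht : t ≠ 0)
    (hs : ∀ e : Module.End R M, e t ≠ 0 → ∃ g : Module.End R M, g (e t) = t)
    (f : Module.End R M) (hf : f t ≠ 0) : IsUnit f := by
  classical
  have hne : (1 : Module.End R M) ≠ 0 := by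
    intro h
    apply ht
    have := congrArg (fun e : Module.End R M => e t) h
    simpa using this
  -- the left ideal annihilating `t`
  let L : Submodule (Module.End R M) (Module.End R M) := annR 1 {t}
  have hL : Cl L := cl_annR 1 {t}
  have memL : ∀ e : Module.End R M, e ∈ L ↔ e t = 0 := by
    intro e
    constructor
    · intro h
      exact h t rfl
    · intro h m hm
      rw [Set.mem_singleton_iff] at hm
      rw [hm]
      exact h
  have hTop : Cl (⊤ : Submodule (Module.End R M) (Module.End R M)) :=
    fun _ _ => Submodule.mem_top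
  obtain ⟨A, hA, -, ⟨a₀, ha₀, ha₀t⟩, hAmin⟩ := exists_min_cl (R := R) (M := M) 1 L ⊤ hL hTop
    ⟨1, Submodule.mem_top, by rw [sub_self]; exact L.zero_mem⟩
  obtain ⟨B, hB, hBL, ⟨b, hb, hbA⟩, hBmin⟩ := exists_min_cl (R := R) (M := M) 1 A L hA hL
    ⟨1 - a₀, by
      rw [memL, LinearMap.sub_apply]
      rw [memL, LinearMap.sub_apply] at ha₀t
      rw [← neg_sub, ha₀t, neg_zero], by
      have : (1 : Module.End R M) - a₀ - 1 = -a₀ := by abel
      rw [this]
      exact A.neg_mem ha₀⟩
  obtain ⟨a, haA, hab⟩ : ∃ a ∈ A, a + b = 1 := by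
    refine ⟨1 - b, ?_, by abel⟩
    rw [← neg_sub]
    exact A.neg_mem hbA
  have hat : a t = t := by
    have h1 : (a + b) t = t := by rw [hab]; rfl
    have h2 : b t = 0 := (memL b).1 (hBL hb)
    rw [LinearMap.add_apply, h2, add_zero] at h1
    exact h1
  -- `A * a = A`
  have hAa : mulR A a = A := by
    apply hAmin
    · exact cl_mulR hA a
    · rintro _ ⟨x, hx, rfl⟩
      exact A.smul_mem x haA
    · refine ⟨a * a, ⟨a, haA, rfl⟩, ?_⟩
      rw [memL, LinearMap.sub_apply, Module.End.mul_apply, hat, hat]
      exact sub_self t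
  -- the left annihilator of `a`
  have hZ : annR a Set.univ = B := by
    apply hBmin
    · exact cl_annR a _
    · intro x hx
      have hxa : x * a = 0 := by
        ext m
        exact hx m (Set.mem_univ m)
      have : x = x * b := by
        calc x = x * (a + b) := by rw [hab, mul_one]
          _ = x * b := by rw [mul_add, hxa, zero_add]
      rw [this]
      exact B.smul_mem x hb
    · have h1 : a ∈ mulR A a := by rw [hAa]; exact haA
      obtain ⟨y, hy, hya⟩ := h1
      refine ⟨1 - y, ?_, ?_⟩
      · intro m _
        rw [LinearMap.sub_apply, ← Module.End.mul_apply y a, hya]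
        exact sub_self (a m)
      · have : (1 : Module.End R M) - y - 1 = -y := by abel
        rw [this]
        exact A.neg_mem hy
  have hba : b * a = 0 := by
    rw [← hZ] at hb
    ext m
    exact hb m (Set.mem_univ m)
  have haa : a * a = a := by
    have : (a + b) * a = a := by rw [hab, one_mul]
    rw [add_mul, hba, add_zero] at this
    exact this
  have ha1 : a = 1 := by
    rcases idem_trivial hind a haa with h | h
    · exfalso
      apply ht
      rw [← hat, h]
      rfl
    · exact h
  have hAtop : A = ⊤ := by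
    rw [eq_top_iff]
    intro x _
    have h1 := A.smul_mem x haA
    rw [ha1, smul_eq_mul, mul_one] at h1
    exact h1
  -- endomorphisms fixing `t` are units
  have hfix : ∀ g : Module.End R M, g t = t → IsUnit g := by
    intro g hg
    have h1 : mulR A g = A := by
      apply hAmin
      · exact cl_mulR hA g
      · rw [hAtop]
        exact le_top
      · refine ⟨g, ⟨1, by rw [hAtop]; exact Submodule.mem_top, one_mul g⟩, ?_⟩
        rw [memL, LinearMap.sub_apply, hg]
        exact sub_self t
    have h2 : (1 : Module.End R M) ∈ mulR A g := by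
      rw [h1, hAtop]
      exact Submodule.mem_top
    obtain ⟨y, _, hy⟩ := h2
    exact isUnit_of_left_inv hind hne g y hy
  obtain ⟨g, hg⟩ := hs f hf
  obtain ⟨v, hv⟩ := hfix (g * f) hg
  refine isUnit_of_left_inv hind hne f (↑(v⁻¹) * g) ?_
  rw [mul_assoc, ← hv]
  exact v.inv_mul

/-- existence of a generator of a simple submodule -/
theorem exists_simple_gen {E : Type u} [Ring E] {M : Type v} [AddCommGroup M] [Module E M]
    [IsArtinian E M] [Nontrivial M] :
    ∃ t : M, t ≠ 0 ∧ ∀ e : E, e • t ≠ 0 → ∃ g : E, g • e • t = t := by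
  obtain ⟨S, hS⟩ := IsAtomic.exists_atom (Submodule E M)
  obtain ⟨t, htS, ht⟩ := (Submodule.ne_bot_iff S).1 hS.1
  refine ⟨t, ht, ?_⟩
  intro e he
  have h1 : Submodule.span E {e • t} ≤ S := by
    rw [Submodule.span_le, Set.singleton_subset_iff]
    exact S.smul_mem e htS
  have h2 : Submodule.span E {e • t} = S := by
    rcases hS.le_iff.1 h1 with h | h
    · rw [Submodule.span_singleton_eq_bot] at h
      exact absurd h he
    · exact h
  rw [← h2] at htS
  obtain ⟨g, hg⟩ := Submodule.mem_span_singleton.1 htS
  exact ⟨g, hg⟩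

end loc

section rings

theorem jacobson_eq {A : Type u} [Ring A] (L : Ideal A) (h1 : (1 : A) ∉ L)
    (h2 : ∀ a, a ∉ L → IsUnit a) : Ring.jacobson A = L := by
  have hle : ∀ I : Ideal A, I ≠ ⊤ → I ≤ L := by
    intro I hI x hx
    by_contra hxL
    apply hI
    exact Ideal.eq_top_of_isUnit_mem I hx (h2 x hxL)
  have hLmax : L.IsMaximal := by
    rw [Ideal.isMaximal_def]
    constructor
    · intro h
      apply h1
      rw [h]
      exact Submodule.mem_top
    · intro I hI
      by_contra h
      exact absurd (hle I h) (not_le_of_gt hI)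
  rw [Ring.jacobson_eq_sInf_isMaximal]
  apply le_antisymm
  · exact sInf_le hLmax
  · apply le_sInf
    intro I hI
    have h3 := hle I hI.ne_top
    have := hI.eq_of_le hLmax.ne_top h3
    rw [this]

/-- finiteness over the centre -/
def FinC (A : Type u) [Ring A] : Prop := Module.Finite (Subring.center A) A

theorem finC_anti {A : Type u} {B : Type v} [Ring A] [Ring B] (f : A →+* Bᵐᵒᵖ)
    (hf : Function.Surjective f) (h : FinC A) : FinC B := by
  classical
  have h' : Module.Finite (Subring.center A) A := h
  obtain ⟨s, hs⟩ := h'.fg_top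
  refine ⟨⟨s.image (fun a => (f a).unop), ?_⟩⟩
  rw [Submodule.eq_top_iff']
  intro b
  obtain ⟨a, ha⟩ := hf (MulOpposite.op b)
  have key : ∀ a ∈ Submodule.span (Subring.center A) (s : Set A),
      (f a).unop ∈ Submodule.span (Subring.center B)
        ((s.image (fun a => (f a).unop) : Finset B) : Set B) := by
    intro a ha
    induction ha using Submodule.span_induction with
    | mem x hx =>
      apply Submodule.subset_span
      exact Finset.mem_image_of_mem _ hx
    | zero =>
      rw [map_zero, MulOpposite.unop_zero]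
      exact Submodule.zero_mem _
    | add x y _ _ hx hy =>
      rw [map_add, MulOpposite.unop_add]
      exact Submodule.add_mem _ hx hy
    | smul z x _ hx =>
      have hz : (f (z : A)).unop ∈ Subring.center B := by
        rw [Subring.mem_center_iff]
        intro c
        obtain ⟨d, hd⟩ := hf (MulOpposite.op c)
        have hc : c = (f d).unop := by rw [hd, MulOpposite.unop_op]
        rw [hc, ← MulOpposite.unop_mul, ← MulOpposite.unop_mul, ← map_mul, ← map_mul,
          (Subring.mem_center_iff.1 z.2) d]
      have h3 : (f (z • x)).unop = (⟨_, hz⟩ : Subring.center B) • (f x).unop := by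
        rw [Subring.smul_def, Subring.smul_def, smul_eq_mul, smul_eq_mul, map_mul,
          MulOpposite.unop_mul]
        exact ((Subring.mem_center_iff.1 hz) _)
      rw [h3]
      exact Submodule.smul_mem _ _ hx
  have h4 := key a (by rw [hs]; exact Submodule.mem_top)
  rw [ha, MulOpposite.unop_op] at h4
  exact h4

end rings

end Pool.Agent.H80R2.GW
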