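import Pool.Agent.H80R2.GW.Dual

set_option autoImplicit false

namespace Pool.Agent.H80R2.GW

section fg

/-- The endomorphism ring of a finitely generated module over a noetherian algebra is finite
over its centre modulo the Jacobson radical. -/
theorem finC_of_fg (k S N : Type) [CommRing k] [IsNoetherianRing k] [Ring S] [Algebra k S]
    [Module.Finite k S] [AddCommGroup N] [Module S N] [Module.Finite S N] :
    FinC (Module.End S N ⧸ Ring.jacobson (Module.End S N)) := by
  classical
  letI : Module k N := Module.compHom N (algebraMap k S)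
  haveI : IsScalarTower k S N := ⟨fun a s n => by
    rw [Algebra.smul_def, mul_smul]
    rfl⟩
  haveI : Module.Finite k N := Module.Finite.trans S N
  haveI : IsNoetherian k N := isNoetherian_of_isNoetherianRing_of_finite k N
  obtain ⟨s, hs⟩ := (inferInstance : Module.Finite S N).fg_top
  -- evaluation at generators
  let ev : Module.End S N →ₗ[k] (s → N) :=
    { toFun := fun f i => f i
      map_add' := fun f g => rfl
      map_smul' := fun a f => rfl }
  have hev : Function.Injective ev := by
    intro f g hfg
    apply LinearMap.ext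
    intro x
    have hx : x ∈ Submodule.span S (s : Set N) := by rw [hs]; exact Submodule.mem_top
    induction hx using Submodule.span_induction with
    | mem x hx => exact congrFun hfg ⟨x, hx⟩
    | zero => rw [map_zero, map_zero]
    | add x y _ _ hx hy => rw [map_add, map_add, hx, hy]
    | smul a x _ hx => rw [map_smul, map_smul, hx]
  haveI : IsNoetherian k (Module.End S N) := isNoetherian_of_injective ev hev
  haveI hfin : Module.Finite k (Module.End S N) := inferInstance
  obtain ⟨t, ht⟩ := hfin.fg_top
  let π : Module.End S N →+* (Module.End S N ⧸ Ring.jacobson (Module.End S N)) :=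
    Ideal.Quotient.mk _
  refine ⟨⟨t.image π, ?_⟩⟩
  rw [Submodule.eq_top_iff']
  intro x
  obtain ⟨f, rfl⟩ := Ideal.Quotient.mk_surjective x
  have hf : f ∈ Submodule.span k (t : Set (Module.End S N)) := by
    rw [ht]; exact Submodule.mem_top
  show π f ∈ _
  induction hf using Submodule.span_induction with
  | mem x hx => exact Submodule.subset_span (Finset.mem_image_of_mem _ hx)
  | zero => rw [map_zero]; exact Submodule.zero_mem _
  | add x y _ _ hx hy => rw [map_add]; exact Submodule.add_mem _ hx hy
  | smul a x _ hx =>
    have hz : π (algebraMap k (Module.End S N) a) ∈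
        Subring.center (Module.End S N ⧸ Ring.jacobson (Module.End S N)) := by
      rw [Subring.mem_center_iff]
      intro g
      obtain ⟨g, rfl⟩ := Ideal.Quotient.mk_surjective g
      show π g * _ = _ * π g
      rw [← map_mul, ← map_mul, Algebra.commutes]
    have h1 : π (a • x) = (⟨_, hz⟩ :
        Subring.center (Module.End S N ⧸ Ring.jacobson (Module.End S N))) • π x := by
      rw [Subring.smul_def, smul_eq_mul, Algebra.smul_def, map_mul]
    rw [h1]
    exact Submodule.smul_mem _ _ hx

end fg

/-- The main construction. -/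
theorem main (k R S M : Type) [CommRing k] [IsNoetherianRing k] [Ring R] [Ring S] [Algebra k S]
    [Module.Finite k S] (σ : S ≃+* Rᵐᵒᵖ) [AddCommGroup M] [Module R M] (hnt : Nontrivial M)
    (hind : ∀ N₁ N₂ : Submodule R M, IsCompl N₁ N₂ → N₁ = ⊥ ∨ N₂ = ⊥)
    (hfl : IsFiniteLength (Module.End R M) M)
    (hcen : ¬ FinC (Module.End R M ⧸ Ring.jacobson (Module.End R M))) :
    ∃ (N : Type) (_ : AddCommGroup N) (_ : Module S N),
        Nontrivial N ∧
        (∀ N₁ N₂ : Submodule S N, IsCompl N₁ N₂ → N₁ = ⊥ ∨ N₂ = ⊥) ∧
        IsFiniteLength (Module.End S N) N ∧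
        ¬ Module.Finite S N ∧
        ¬ FinC (Module.End S N ⧸ Ring.jacobson (Module.End S N)) := by
  classical
  obtain ⟨hnoe, hart⟩ := isFiniteLength_iff_isNoetherian_isArtinian.1 hfl
  obtain ⟨t, ht, hts⟩ := exists_simple_gen (E := Module.End R M) (M := M)
  have hunit : ∀ f : Module.End R M, f t ≠ 0 → IsUnit f :=
    isUnit_of_apply_ne hind t ht hts
  -- the Jacobson radical
  let L : Ideal (Module.End R M) := LinearMap.ker (LinearMap.toSpanSingleton (Module.End R M) M t)
  have memL : ∀ e : Module.End R M, e ∈ L ↔ e t = 0 := fun e => Iff.rfl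
  have hJ : Ring.jacobson (Module.End R M) = L := by
    apply jacobson_eq
    · intro h
      exact ht ((memL 1).1 h)
    · intro a ha
      exact hunit a (fun h => ha ((memL a).2 h))
  -- the injective hull
  obtain ⟨Q, _, _, hQ, j, hj, hess⟩ := exists_hull (Module.End R M)
    (Submodule.span (Module.End R M) {t})
  let t0 : Submodule.span (Module.End R M) {t} := ⟨t, Submodule.mem_span_singleton_self t⟩
  let q0 : Q := j t0
  have hq0 : ∀ e : Module.End R M, e • q0 = 0 ↔ e t = 0 := by
    intro e
    constructor
    · intro h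
      have h1 : j (e • t0) = 0 := by rw [map_smul]; exact h
      have h2 : e • t0 = 0 := hj (by rw [h1, map_zero])
      exact congrArg Subtype.val h2
    · intro h
      show e • j t0 = 0
      rw [← map_smul]
      have h2 : e • t0 = 0 := Subtype.ext h
      rw [h2, map_zero]
  have hq0ne : q0 ≠ 0 := by
    intro h
    apply ht
    have := (hq0 1).1 (by rw [one_smul]; exact h)
    exact this
  have hH : ∀ x : Q, x ≠ 0 → ∃ e : Module.End R M, e • x = q0 := by
    intro x hx
    obtain ⟨e, d, hd, hed⟩ := hess x hx
    obtain ⟨g, hg⟩ := Submodule.mem_span_singleton.1 d.2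
    have hgt : g • t ≠ 0 := by
      intro h
      apply hd
      apply Subtype.ext
      rw [← hg, h]
      rfl
    obtain ⟨g', hg'⟩ := hts g hgt
    refine ⟨g' * e, ?_⟩
    rw [mul_smul, hed, ← map_smul]
    show j (g' • d) = j t0
    congr 1
    apply Subtype.ext
    show g' • (d : M) = t
    rw [← hg, hg']
  -- the basic functional
  obtain ⟨n0, hn0⟩ := Module.Injective.out (R := Module.End R M) (Q := Q)
    (Submodule.span (Module.End R M) {t}).subtype (Submodule.injective_subtype _) j
  have hn0t : n0 t = q0 := hn0 t0
  letI : Module S (M →ₗ[Module.End R M] Q) := dualModule σ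
  have smul_ap : ∀ (s : S) (n : M →ₗ[Module.End R M] Q), s • n = n.comp (rmul (σ s).unop) :=
    fun s n => rfl
  -- endomorphisms
  have hext : ∀ c : Module.End S (M →ₗ[Module.End R M] Q),
      ∃ q : Q →ₗ[Module.End R M] Q, ∀ n, c n = q.comp n := by
    intro c
    apply exists_post (R := R) (M := M) (Q := Q) c.toAddMonoidHom
    intro r n
    show c (n.comp (rmul r)) = (c n).comp (rmul r)
    have h1 : n.comp (rmul r) = (σ.symm (MulOpposite.op r)) • n := by
      rw [smul_ap, RingEquiv.apply_symm_apply, MulOpposite.unop_op]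
    have h2 : (c n).comp (rmul r) = (σ.symm (MulOpposite.op r)) • (c n) := by
      rw [smul_ap, RingEquiv.apply_symm_apply, MulOpposite.unop_op]
    rw [h1, h2, map_smul]
  let post : (Q →ₗ[Module.End R M] Q) → Module.End S (M →ₗ[Module.End R M] Q) := fun q =>
    { toFun := fun n => q.comp n
      map_add' := fun n n' => by
        ext m
        exact map_add q _ _
      map_smul' := fun s n => rfl }
  have post_ap : ∀ q n, post q n = q.comp n := fun q n => rfl
  -- endomorphisms of the hull
  have hq1 : ∀ q : Q →ₗ[Module.End R M] Q, ∃ e : Module.End R M, q q0 = e • q0 := by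
    intro q
    by_cases h : q q0 = 0
    · exact ⟨0, by rw [h, zero_smul]⟩
    · obtain ⟨e, he⟩ := hH _ h
      have h1 : e t ≠ 0 := by
        intro h1
        have h2 := (hq0 e).2 h1
        rw [← map_smul, h2, map_zero] at he
        exact hq0ne he.symm
      obtain ⟨u, hu⟩ := hunit e h1
      refine ⟨((u⁻¹ : (Module.End R M)ˣ) : Module.End R M), ?_⟩
      calc q q0 = ((u⁻¹ : (Module.End R M)ˣ) : Module.End R M) • (u : Module.End R M) • q q0 := by
            rw [← mul_smul, Units.inv_mul, one_smul]
        _ = ((u⁻¹ : (Module.End R M)ˣ) : Module.End R M) • q0 := by rw [hu, he]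
  have hq2 : ∀ q : Q →ₗ[Module.End R M] Q, q q0 ≠ 0 → Function.Bijective q := by
    intro q hq
    have hinj : Function.Injective q := by
      rw [← LinearMap.ker_eq_bot, Submodule.eq_bot_iff]
      intro x hx
      by_contra hx0
      obtain ⟨e, he⟩ := hH x hx0
      apply hq
      rw [← he, map_smul, LinearMap.mem_ker.1 hx, smul_zero]
    refine ⟨hinj, ?_⟩
    obtain ⟨p, hp⟩ := Module.Injective.out (R := Module.End R M) (Q := Q) q hinj LinearMap.id
    have hp' : ∀ x, p (q x) = x := hp
    intro y
    refine ⟨p y, ?_⟩
    by_contra hne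
    have hz : y - q (p y) ≠ 0 := fun h => hne (sub_eq_zero.1 h).symm
    obtain ⟨e, he⟩ := hH _ hz
    have h1 : p q0 = 0 := by
      rw [← he, map_smul, map_sub, hp', sub_self, smul_zero]
    obtain ⟨e1, he1⟩ := hq1 q
    have h2 := hp' q0
    rw [he1, map_smul, h1, smul_zero] at h2
    exact hq0ne h2.symm
  -- units
  have hunitC : ∀ c : Module.End S (M →ₗ[Module.End R M] Q), (c n0) t ≠ 0 → IsUnit c := by
    intro c hc
    obtain ⟨q, hq⟩ := hext c
    have h1 : q q0 ≠ 0 := by
      intro h
      apply hc
      rw [hq, LinearMap.comp_apply, hn0t, h]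
    let qe : Q ≃ₗ[Module.End R M] Q := LinearEquiv.ofBijective q (hq2 q h1)
    have hqe : ∀ x, qe x = q x := fun x => rfl
    refine ⟨⟨c, post qe.symm.toLinearMap, ?_, ?_⟩, rfl⟩
    · apply LinearMap.ext
      intro n
      rw [Module.End.mul_apply, hq, post_ap]
      ext m
      show q (qe.symm (n m)) = n m
      rw [← hqe, LinearEquiv.apply_symm_apply]
    · apply LinearMap.ext
      intro n
      rw [Module.End.mul_apply, hq, post_ap]
      ext m
      show qe.symm (q (n m)) = n m
      rw [← hqe, LinearEquiv.symm_apply_apply]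
  have hn0ne : n0 ≠ 0 := by
    intro h
    apply hq0ne
    rw [← hn0t, h, LinearMap.zero_apply]
  haveI hNnt : Nontrivial (M →ₗ[Module.End R M] Q) := ⟨n0, 0, hn0ne⟩
  -- the residue map
  have hres : ∀ c : Module.End S (M →ₗ[Module.End R M] Q),
      ∃ e : Module.End R M, (c n0) t = e • q0 := by
    intro c
    obtain ⟨q, hq⟩ := hext c
    obtain ⟨e, he⟩ := hq1 q
    exact ⟨e, by rw [hq, LinearMap.comp_apply, hn0t, he]⟩
  choose χ hχ using hres
  let π : Module.End R M →+* (Module.End R M ⧸ Ring.jacobson (Module.End R M)) :=
    Ideal.Quotient.mk _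
  have hπ : ∀ e e' : Module.End R M, e • q0 = e' • q0 → π e = π e' := by
    intro e e' h
    apply Ideal.Quotient.eq.2
    rw [hJ, memL, ← hq0, sub_smul, h, sub_self]
  let X : Module.End S (M →ₗ[Module.End R M] Q) →+*
      (Module.End R M ⧸ Ring.jacobson (Module.End R M))ᵐᵒᵖ :=
    { toFun := fun c => MulOpposite.op (π (χ c))
      map_one' := by
        rw [← MulOpposite.op_one, ← map_one π]
        congr 1
        apply hπ
        rw [← hχ, Module.End.one_apply, hn0t, one_smul]
      map_mul' := by
        intro c c'
        rw [← MulOpposite.op_mul, ← map_mul]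
        congr 1
        apply hπ
        rw [← hχ, Module.End.mul_apply]
        obtain ⟨q, hq⟩ := hext c
        rw [hq, LinearMap.comp_apply, hχ c', map_smul, mul_smul, ← hχ c, hq,
          LinearMap.comp_apply, hn0t]
      map_zero' := by
        rw [← MulOpposite.op_zero, ← map_zero π]
        congr 1
        apply hπ
        rw [← hχ, LinearMap.zero_apply, LinearMap.zero_apply, zero_smul]
      map_add' := by
        intro c c'
        rw [← MulOpposite.op_add, ← map_add]
        congr 1
        apply hπ
        rw [← hχ, LinearMap.add_apply, LinearMap.add_apply, hχ c, hχ c', add_smul] }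
  have hXsurj : Function.Surjective X := by
    intro d
    obtain ⟨e, he⟩ := Ideal.Quotient.mk_surjective d.unop
    obtain ⟨q, hq⟩ := factor (E := Module.End R M) (Q := Q)
      (LinearMap.toSpanSingleton (Module.End R M) Q q0)
      (LinearMap.toSpanSingleton (Module.End R M) Q (e • q0)) (by
        intro x hx
        rw [LinearMap.mem_ker, LinearMap.toSpanSingleton_apply] at hx ⊢
        rw [hq0, ← memL, ← hJ] at hx
        have h2 : x * e ∈ Ring.jacobson (Module.End R M) := Ideal.mul_mem_right e _ hx
        rw [hJ, memL, ← hq0, mul_smul] at h2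
        exact h2)
    refine ⟨post q, ?_⟩
    show MulOpposite.op (π (χ (post q))) = d
    have h1 : π (χ (post q)) = π e := by
      apply hπ
      rw [← hχ, post_ap, LinearMap.comp_apply, hn0t]
      have := hq 1
      rw [LinearMap.toSpanSingleton_apply, LinearMap.toSpanSingleton_apply, one_smul,
        one_smul] at this
      exact this
    rw [h1]
    show MulOpposite.op (Ideal.Quotient.mk _ e) = d
    rw [he, MulOpposite.op_unop]
  have hXker : ∀ c ∈ Ring.jacobson (Module.End S (M →ₗ[Module.End R M] Q)), X c = 0 := by
    intro c hc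
    have h1 : (c n0) t = 0 := by
      by_contra h
      have h2 := hunitC c h
      have h3 := Ideal.eq_top_of_isUnit_mem _ hc h2
      exact absurd h3 (Ring.jacobson_lt_top
        (Module.End S (M →ₗ[Module.End R M] Q))).ne
    show MulOpposite.op (π (χ c)) = 0
    rw [← MulOpposite.op_zero, ← map_zero π]
    congr 1
    apply hπ
    rw [← hχ, h1, zero_smul]
  have hFin : FinC (Module.End S (M →ₗ[Module.End R M] Q) ⧸
      Ring.jacobson (Module.End S (M →ₗ[Module.End R M] Q))) →
      FinC (Module.End R M ⧸ Ring.jacobson (Module.End R M)) := by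
    apply finC_anti (Ideal.Quotient.lift _ X hXker)
    intro d
    obtain ⟨c, hc⟩ := hXsurj d
    exact ⟨Ideal.Quotient.mk _ c, by rw [Ideal.Quotient.lift_mk]; exact hc⟩
  refine ⟨M →ₗ[Module.End R M] Q, inferInstance, inferInstance, hNnt, ?_, ?_, ?_, ?_⟩
  · -- indecomposable
    intro N₁ N₂ hc
    obtain ⟨p, hp1, hp2⟩ : ∃ p : Module.End S (M →ₗ[Module.End R M] Q),
        (∀ x ∈ N₁, p x = x) ∧ (∀ x ∈ N₂, p x = 0) := by
      refine ⟨N₁.subtype.comp (N₁.projectionOnto N₂ hc), ?_, ?_⟩
      · intro x hx
        exact congrArg Subtype.val (Submodule.projectionOnto_apply_left hc ⟨x, hx⟩)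
      · intro x hx
        exact congrArg Subtype.val (Submodule.projectionOnto_apply_right hc ⟨x, hx⟩)
    by_cases h : (p n0) t = 0
    · -- then `1 - p` is a unit
      left
      have h1 : IsUnit (1 - p) := by
        apply hunitC
        rw [LinearMap.sub_apply, LinearMap.sub_apply, h, Module.End.one_apply, sub_zero, hn0t]
        exact hq0ne
      obtain ⟨u, hu⟩ := h1
      rw [Submodule.eq_bot_iff]
      intro x hx
      have h2 : (1 - p) x = 0 := by
        rw [LinearMap.sub_apply, hp1 x hx]
        exact sub_self x
      have h3 : ((u⁻¹ : (Module.End S (M →ₗ[Module.End R M] Q))ˣ) :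
          Module.End S (M →ₗ[Module.End R M] Q)) ((1 - p) x) = x := by
        rw [← hu, ← Module.End.mul_apply, Units.inv_mul]
        rfl
      rw [h2, map_zero] at h3
      exact h3.symm
    · right
      obtain ⟨u, hu⟩ := hunitC p h
      rw [Submodule.eq_bot_iff]
      intro x hx
      have h2 : p x = 0 := hp2 x hx
      have h3 : ((u⁻¹ : (Module.End S (M →ₗ[Module.End R M] Q))ˣ) :
          Module.End S (M →ₗ[Module.End R M] Q)) (p x) = x := by
        rw [← hu, ← Module.End.mul_apply, Units.inv_mul]
        rfl
      rw [h2, map_zero] at h3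
      exact h3.symm
  · -- finite length
    let perp : Submodule (Module.End S (M →ₗ[Module.End R M] Q)) (M →ₗ[Module.End R M] Q) →
        Submodule (Module.End R M) M := fun V => ⨅ v ∈ V, LinearMap.ker v
    have memperp : ∀ V m, m ∈ perp V ↔ ∀ v ∈ V, v m = 0 := by
      intro V m
      show m ∈ (⨅ v ∈ V, LinearMap.ker v) ↔ _
      rw [Submodule.mem_iInf]
      constructor
      · intro h v hv
        have := h v
        rw [Submodule.mem_iInf] at this
        exact this hv
      · intro h v
        rw [Submodule.mem_iInf]
        intro hv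
        exact h v hv
    have hclos : ∀ V (n : M →ₗ[Module.End R M] Q), perp V ≤ LinearMap.ker n → n ∈ V := by
      intro V n hn
      let 𝒮 : Set (Submodule (Module.End R M) M) :=
        {Y | ∃ s : Finset (M →ₗ[Module.End R M] Q), (∀ v ∈ s, v ∈ V) ∧
          Y = ⨅ v ∈ s, LinearMap.ker v}
      have h𝒮 : 𝒮.Nonempty := ⟨_, ∅, by simp, rfl⟩
      obtain ⟨Y, ⟨s, hs, rfl⟩, hmin⟩ :=
        WellFounded.has_min (IsWellFounded.wf (r := (· < ·))) 𝒮 h𝒮
      have hsub : (⨅ v ∈ s, LinearMap.ker v) ≤ perp V := by
        refine le_iInf₂ fun v hv => ?_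
        have h1 : (⨅ w ∈ insert v s, LinearMap.ker w) ≤ ⨅ w ∈ s, LinearMap.ker w := by
          refine le_iInf₂ fun w hw => ?_
          exact iInf₂_le w (Finset.mem_insert_of_mem hw)
        have h2 : (⨅ w ∈ insert v s, LinearMap.ker w) = ⨅ w ∈ s, LinearMap.ker w := by
          by_contra hne
          refine hmin _ ⟨insert v s, ?_, rfl⟩ (lt_of_le_of_ne h1 hne)
          intro w hw
          rcases Finset.mem_insert.1 hw with rfl | hw
          · exact hv
          · exact hs w hw
        rw [← h2]
        exact iInf₂_le v (Finset.mem_insert_self v s)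
      let Θ : M →ₗ[Module.End R M] (s → Q) := LinearMap.pi (fun v : s => (v : M →ₗ[Module.End R M] Q))
      obtain ⟨Ψ, hΨ⟩ := factor Θ n (by
        intro m hm
        apply hn
        apply hsub
        rw [Submodule.mem_iInf]
        intro v
        rw [Submodule.mem_iInf]
        intro hv
        exact congrFun (LinearMap.mem_ker.1 hm) ⟨v, hv⟩)
      have h3 : n = ∑ v : s, post (Ψ.comp (LinearMap.single (Module.End R M) (fun _ : s => Q) v))
          (v : M →ₗ[Module.End R M] Q) := by
        ext m
        rw [LinearMap.sum_apply, ← hΨ m]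
        have h4 : Θ m = ∑ v : s, Pi.single v ((v : M →ₗ[Module.End R M] Q) m) := by
          funext w
          rw [Finset.sum_apply]
          rw [Finset.sum_eq_single w (fun v _ h => by rw [Pi.single_eq_of_ne h.symm])
            (fun h => absurd (Finset.mem_univ _) h), Pi.single_eq_same]
          rfl
        rw [h4, map_sum]
        rfl
      rw [h3]
      apply Submodule.sum_mem
      intro v _
      exact V.smul_mem (post _) (hs v v.2)
    have hle : ∀ V V', perp V' ≤ perp V ↔ V ≤ V' := by
      intro V V'
      constructor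
      · intro h v hv
        apply hclos
        refine le_trans h ?_
        intro m hm
        exact (memperp V m).1 hm v hv
      · intro h m hm
        rw [memperp] at hm ⊢
        exact fun v hv => hm v (h hv)
    rw [isFiniteLength_iff_isNoetherian_isArtinian]
    constructor
    · rw [isNoetherian_iff']
      let f : (Submodule (Module.End S (M →ₗ[Module.End R M] Q))
          (M →ₗ[Module.End R M] Q)) ↪o (Submodule (Module.End R M) M)ᵒᵈ :=
        OrderEmbedding.ofMapLEIff (fun V => OrderDual.toDual (perp V)) (fun V V' => hle V V')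
      exact f.wellFoundedGT
    · let f : (Submodule (Module.End S (M →ₗ[Module.End R M] Q))
          (M →ₗ[Module.End R M] Q)) ↪o (Submodule (Module.End R M) M)ᵒᵈ :=
        OrderEmbedding.ofMapLEIff (fun V => OrderDual.toDual (perp V)) (fun V V' => hle V V')
      have : WellFoundedGT (Submodule (Module.End R M) M) := isNoetherian_iff'.1 hnoe
      exact f.wellFoundedLT
  · intro h
    exact hcen (hFin (finC_of_fg k S _))
  · intro h
    exact hcen (hFin h)

end Pool.Agent.H80R2.GW
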